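import Pool.Agent.K6.H7.CM1.Fin

set_option autoImplicit false
set_option linter.unusedSectionVars false
set_option linter.unusedSimpArgs false

/-!
# The dimension of an algebraic group which contains the periods of a 1-motive
-/

open Module Matrix Pool.Agent.Y102 Pool.Agent.R917.OM Pool.Agent.R917.BX Pool.Agent.W516.DR
  Pool.Agent.H204R3.GP Pool.Agent.N208.UR Pool.Agent.TH119.MX Pool.Agent.R917
  Pool.Agent.H204R3.SP Pool.Agent.W516.KC

noncomputable section

namespace Pool.Agent.K6.H7.CM1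

open Pool.Agent.N208.OneM Pool.Agent.R917.DT

/-- The Lie algebra of a subgroup `G` of `GL (ℂ)` which is defined over `ℚ`: the rational matrices `X`
such that `exp (t X)` is in `G` for all complex numbers `t`. -/
def lieSet {R : Type} [Fintype R] [DecidableEq R] (G : Subgroup (GL R ℂ)) : Set (Matrix R R ℚ) :=
  {X | ∀ t : ℂ, ∃ x ∈ G, (x : Matrix R R ℂ) = NormedSpace.exp (t • X.map (algebraMap ℚ ℂ))}

/-- The dimension of a subgroup of `GL (ℂ)` which is defined over `ℚ`: the dimension of its Lie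
algebra. -/
def dimension {R : Type} [Fintype R] [DecidableEq R] (G : Subgroup (GL R ℂ)) : ℕ :=
  finrank ℚ (Submodule.span ℚ (lieSet G))

variable {g n s : ℕ}

/-- The block of a matrix, as an endomorphism. -/
def blkQ (A : AbVar g) (n s : ℕ) : Matrix (RI g n s) (RI g n s) ℚ →ₗ[ℚ] Module.End ℚ A.H1 where
  toFun M := (Pi.basisFun ℚ (Fin (2 * g))).constr ℚ
    fun j => (fun j' => M (Sum.inl j) (Sum.inl j') : A.H1)
  map_add' M N := by
    rw [← map_add]
    rfl
  map_smul' c M := by
    rw [RingHom.id_apply, ← map_smul]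
    rfl

theorem blkQ_mtQ {A : AbVar g} (L : Tup A n s) : blkQ A n s (mtQ L) = op L := by
  refine (Pi.basisFun ℚ (Fin (2 * g))).ext fun j => ?_
  change (Pi.basisFun ℚ (Fin (2 * g))).constr ℚ _ _ = _
  rw [Basis.constr_basis, Pi.basisFun_apply]
  rfl

variable {A : AbVarG g} {u : Fin n → Fin g → ℂ} {v : Fin s → Fin g → ℂ}
  {ℓ : Fin n → Fin s → ℂ} {G : Subgroup (GL (Betti g n s) ℂ)}

theorem mtQ_mem {L : Tup A.toAbVar n s} (hpt : PtM A.toAbVar (dat A u v ℓ) (mats G))
    (hL : L ∈ gg A.toAbVar n s (mats G)) : mtQ L ∈ lieSet G := by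
  intro t
  exact exp_mem hpt.grp fun k => (hL.2 k).smul t

theorem one_notMem_NA {A : AbVar g} (hg : 0 < g) : (1 : Module.End ℚ A.H1) ∉ A.NA := by
  intro h
  have h1 := A.NA_skew h
  have h2 : ∀ u v, A.om u v = 0 := by
    intro u v
    have h3 := h1 u v
    simp only [Module.End.one_apply] at h3
    linarith
  have h3 := A.om_nondeg (u := eb A ⟨0, by omega⟩) fun v => h2 _ v
  have h4 := congrFun h3 ⟨0, by omega⟩
  simp [eb] at h4

/-- The lower bound for the dimension. -/
theorem finrank_hh_lt (hg : 0 < g) (hG : IsAlgebraicSubgroup G) (hP : ContainsPeriods A u v ℓ G)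
    (hle : G ≤ mumfordTate A u v ℓ) : finrank ℚ (hh A G) + 1 ≤ dimension G := by
  have hpt := ptM hG hP
  obtain ⟨W, hW, hW1, hW2⟩ := weight hpt
  have h1 : hh A G ⊔ Submodule.span ℚ {(1 : Module.End ℚ A.toAbVar.H1)} ≤
      (Submodule.span ℚ (lieSet G)).map (blkQ A.toAbVar n s) := by
    refine sup_le ?_ ?_
    · rintro _ ⟨L, hL, rfl⟩
      refine ⟨mtQ (L - L.2.1 • W), Submodule.subset_span (mtQ_mem hpt
        (Submodule.sub_mem _ hL (Submodule.smul_mem _ _ hW))), ?_⟩
      rw [blkQ_mtQ]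
      unfold op
      change (L.1 - L.2.1 • W.1) + (L.2.1 - L.2.1 * W.2.1) • (1 : Module.End ℚ A.toAbVar.H1) = L.1
      rw [hW1, hW2]
      simp
    · rw [Submodule.span_singleton_le_iff_mem]
      refine ⟨mtQ W, Submodule.subset_span (mtQ_mem hpt hW), ?_⟩
      rw [blkQ_mtQ]
      unfold op
      rw [hW1, hW2]
      simp
  have h2 := Submodule.finrank_mono h1
  have h3 := Submodule.finrank_map_le (blkQ A.toAbVar n s) (Submodule.span ℚ (lieSet G))
  have h4 : Disjoint (hh A G) (Submodule.span ℚ {(1 : Module.End ℚ A.toAbVar.H1)}) := by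
    rw [Submodule.disjoint_span_singleton']
    · exact fun h => one_notMem_NA hg (A.toAbVar.MA_le_NA (hh_le_MA hG hle hP h))
    · intro h
      have h5 := congrArg (fun f : Module.End ℚ A.toAbVar.H1 =>
        f (eb A.toAbVar ⟨0, by omega⟩) ⟨0, by omega⟩) h
      simp [eb] at h5
  have h5 := Submodule.finrank_sup_add_finrank_inf_eq (hh A G)
    (Submodule.span ℚ {(1 : Module.End ℚ A.toAbVar.H1)})
  have h6 : finrank ℚ (Submodule.span ℚ {(1 : Module.End ℚ A.toAbVar.H1)}) = 1 := by
    refine finrank_span_singleton fun h => ?_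
    have h5 := congrArg (fun f : Module.End ℚ A.toAbVar.H1 =>
      f (eb A.toAbVar ⟨0, by omega⟩) ⟨0, by omega⟩) h
    simp [eb] at h5
  rw [disjoint_iff.1 h4, finrank_bot, h6, add_zero] at h5
  exact (h5.symm.le.trans h2).trans h3

end Pool.Agent.K6.H7.CM1
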