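import Pool.Agent.K6.H7.CM2.Rank

set_option autoImplicit false
set_option linter.unusedSectionVars false
set_option linter.unusedSimpArgs false

/-!
# The order of the Galois group
-/

open Module Matrix TensorProduct Pool.Agent.Y102 Pool.Agent.H204R3.GP

noncomputable section

namespace Pool.Agent.K6.H7.CM1

/-! ### Primitive CM types -/

/-- The set `Φ` of complex embeddings of `K` is primitive: it is not the set of all extensions of a set
of embeddings of a proper subfield `F` of `K`. -/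
def IsPrimitive {K : Type} [Field K] (Φ : Set (K →+* ℂ)) : Prop :=
  ∀ F : Subfield K, (∀ φ ψ : K →+* ℂ, (∀ x ∈ F, φ x = ψ x) → (φ ∈ Φ ↔ ψ ∈ Φ)) → F = ⊤

section prim

variable {K L : Type} [Field K] [NumberField K] [Field L] [NumberField L] [IsGalois ℚ L]

/-- Extension of embeddings. -/
theorem exists_ext (χ : K →ₐ[ℚ] L) (φ₀ : L →+* ℂ) (ρ : K →+* ℂ) :
    ∃ σ : L ≃ₐ[ℚ] L, ∀ x, φ₀ (σ (χ x)) = ρ x := by
  let _ : Algebra K L := (χ : K →+* L).toAlgebra
  let _ : Algebra K ℂ := ρ.toAlgebra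
  have : Module.Finite K L := by
    have : IsScalarTower ℚ K L := IsScalarTower.of_algebraMap_eq fun x => by
      rw [eq_ratCast, eq_ratCast, map_ratCast]
    exact Module.Finite.of_restrictScalars_finite ℚ K L
  let ψ : L →ₐ[K] ℂ := IsAlgClosed.lift
  obtain ⟨σ, hσ⟩ := exists_galois φ₀ (ψ : L →+* ℂ)
  refine ⟨σ, fun x => ?_⟩
  have h1 : tw φ₀ σ (χ x) = ρ x := by
    rw [← hσ]
    exact ψ.commutes x
  exact h1

/-- Embeddings of a field with a primitive CM type are separated. -/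
theorem eq_of_primitive {Φ : Set (K →+* ℂ)} (hΦ : IsPrimitive Φ) {χ χ' : K →ₐ[ℚ] L}
    (h : ∀ φ : L →+* ℂ, φ.comp (χ : K →+* L) ∈ Φ ↔ φ.comp (χ' : K →+* L) ∈ Φ) : χ = χ' := by
  obtain ⟨φ₀⟩ : Nonempty (L →+* ℂ) := inferInstance
  let H : Subgroup (L ≃ₐ[ℚ] L) :=
    { carrier := {τ | ∀ φ : L →+* ℂ, (tw φ τ).comp (χ : K →+* L) ∈ Φ ↔ φ.comp (χ : K →+* L) ∈ Φ}
      one_mem' := fun φ => Iff.rfl
      mul_mem' := fun {a b} ha hb φ => (hb (tw φ a)).trans (ha φ)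
      inv_mem' := fun {a} ha φ => by
        have h1 := ha (tw φ a⁻¹)
        have h2 : tw (tw φ a⁻¹) a = φ := RingHom.ext fun x => by
          change φ (a⁻¹ (a x)) = φ x
          congr 1
          exact a.symm_apply_apply x
        rw [h2] at h1
        exact h1.symm }
  let F : Subfield K := (IntermediateField.fixedField H).toSubfield.comap (χ : K →+* L)
  have hF : ∀ x, x ∈ F ↔ ∀ τ ∈ H, τ (χ x) = χ x := by
    intro x
    change χ x ∈ IntermediateField.fixedField H ↔ _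
    rw [IntermediateField.mem_fixedField_iff]
  have hfix : ∀ y ∈ IntermediateField.fixedField H, ∃ x, χ x = y := by
    intro y hy
    have h1 : y ∈ IntermediateField.fixedField (IntermediateField.fixingSubgroup χ.fieldRange) := by
      rw [IntermediateField.mem_fixedField_iff]
      intro τ hτ
      refine (IntermediateField.mem_fixedField_iff _ _).1 hy τ fun φ => ?_
      have h2 : (tw φ τ).comp (χ : K →+* L) = φ.comp (χ : K →+* L) := RingHom.ext fun x => by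
        change φ (τ (χ x)) = φ (χ x)
        congr 1
        exact (IntermediateField.mem_fixingSubgroup_iff _ _).1 hτ (χ x) ⟨x, rfl⟩
      rw [h2]
    rw [IsGalois.fixedField_fixingSubgroup] at h1
    exact h1
  have hT : F = ⊤ := by
    refine hΦ F fun φ ψ hφψ => ?_
    obtain ⟨σ₁, h1⟩ := exists_ext χ φ₀ φ
    obtain ⟨σ₂, h2⟩ := exists_ext χ φ₀ ψ
    have h3 : σ₁⁻¹ * σ₂ ∈ H := by
      rw [← IntermediateField.fixingSubgroup_fixedField H]
      rw [IntermediateField.mem_fixingSubgroup_iff]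
      intro y hy
      obtain ⟨x, rfl⟩ := hfix y hy
      have hxF : x ∈ F := hy
      have h4 := hφψ x hxF
      rw [← h1, ← h2] at h4
      have h5 := φ₀.injective h4
      change σ₁⁻¹ (σ₂ (χ x)) = χ x
      rw [← h5]
      exact σ₁.symm_apply_apply _
    have h4 : φ = (tw φ₀ σ₁).comp (χ : K →+* L) := RingHom.ext fun x => (h1 x).symm
    have h5 : ψ = (tw (tw φ₀ σ₁) (σ₁⁻¹ * σ₂)).comp (χ : K →+* L) := RingHom.ext fun x => by
      rw [← h2 x]
      change φ₀ (σ₂ (χ x)) = φ₀ (σ₁ (σ₁⁻¹ (σ₂ (χ x))))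
      congr 1
      exact (σ₁.apply_symm_apply _).symm
    rw [h4, h5]
    exact (h3 _).symm
  obtain ⟨σ, hσ⟩ := exists_ext χ φ₀ (φ₀.comp (χ' : K →+* L))
  have h1 : ∀ x, σ (χ x) = χ' x := fun x => φ₀.injective (hσ x)
  have h2 : σ ∈ H := fun φ => by
    have h3 : (tw φ σ).comp (χ : K →+* L) = φ.comp (χ' : K →+* L) :=
      RingHom.ext fun x => congrArg φ (h1 x)
    rw [h3]
    exact (h φ).symm
  refine AlgHom.ext fun x => ?_
  rw [← h1 x]
  refine ((hF x).1 ?_ σ h2).symm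
  rw [hT]
  exact Subfield.mem_top x

end prim

variable {ι : Type} {K : ι → Type} [∀ i, Field (K i)] [∀ i, NumberField (K i)]
  {L : Type} [Field L] [NumberField L]

namespace CMData

variable {g : ℕ} {A : AbVar g} {Φ : ∀ i, Set (K i →+* ℂ)} (D : CMData A Φ) [Fintype ι]

theorem NN_gl {𝔥 : Submodule ℚ (Module.End ℚ A.H1)} {n : (Σ i, (K i →ₐ[ℚ] L)) → ℚ}
    (hn : n ∈ D.NN L 𝔥) (σ : L ≃ₐ[ℚ] L) : (fun p => n (gl σ p)) ∈ D.NN L 𝔥 := by
  intro θ hθ
  apply σ.injective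
  have h1 : ∑ p : Σ i, (K i →ₐ[ℚ] L), n p • p.2 (θ p.1) =
      ∑ p : Σ i, (K i →ₐ[ℚ] L), n (gl σ p) • (gl σ p).2 (θ (gl σ p).1) :=
    (Equiv.sum_comp (glE σ) fun p : (Σ i, (K i →ₐ[ℚ] L)) => n p • p.2 (θ p.1)).symm
  rw [map_sum, map_zero, ← hn θ hθ, h1]
  refine Finset.sum_congr rfl fun p _ => ?_
  exact σ.toLinearMap.map_smul (n (gl σ p)) (p.2 (θ p.1))

/-- The representation of the Galois group on the cocharacters. -/
def rep (L : Type) [Field L] [NumberField L] (𝔥 : Submodule ℚ (Module.End ℚ A.H1)) :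
    Representation ℚ (L ≃ₐ[ℚ] L) (D.YY L 𝔥) where
  toFun σ :=
    { toFun := fun v => ⟨fun p => v.1 (gl σ⁻¹ p), fun n hn => by
        have h1 : ∑ p : Σ i, (K i →ₐ[ℚ] L), n p * v.1 (gl σ⁻¹ p) =
            ∑ p : Σ i, (K i →ₐ[ℚ] L), n (gl σ p) * v.1 (gl σ⁻¹ (gl σ p)) :=
          (Equiv.sum_comp (glE σ) fun p : (Σ i, (K i →ₐ[ℚ] L)) => n p * v.1 (gl σ⁻¹ p)).symm
        have h2 : ∀ p : Σ i, (K i →ₐ[ℚ] L), gl σ⁻¹ (gl σ p) = p := fun p =>
          (glE σ).symm_apply_apply p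
        simp only [h2] at h1
        exact h1.trans (v.2 _ (D.NN_gl hn σ))⟩
      map_add' := fun v w => rfl
      map_smul' := fun c v => rfl }
  map_one' := LinearMap.ext fun v => Subtype.ext (funext fun p => rfl)
  map_mul' σ τ := LinearMap.ext fun v => Subtype.ext (funext fun p => by
    change v.1 (gl (σ * τ)⁻¹ p) = v.1 (gl τ⁻¹ (gl σ⁻¹ p))
    rw [_root_.mul_inv_rev]
    rfl)

theorem rep_apply (𝔥 : Submodule ℚ (Module.End ℚ A.H1)) (σ : L ≃ₐ[ℚ] L) (v : D.YY L 𝔥)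
    (p : Σ i, (K i →ₐ[ℚ] L)) : (D.rep L 𝔥 σ v).1 p = v.1 (gl σ⁻¹ p) := rfl

/-- The representation is faithful. -/
theorem rep_faithful (hΦ : ∀ i, IsCMType (Φ i)) (hprim : ∀ i, IsPrimitive (Φ i)) [IsGalois ℚ L]
    (hL : ⨆ p : (Σ i, (K i →ₐ[ℚ] L)), p.2.fieldRange = ⊤)
    {𝔥 : Submodule ℚ (Module.End ℚ A.H1)} (hF : A.Full 𝔥) (hle : 𝔥 ≤ A.MA) {σ : L ≃ₐ[ℚ] L}
    (hσ : D.rep L 𝔥 σ = 1) : σ = 1 := by
  classical
  have h1 : ∀ p : Σ i, (K i →ₐ[ℚ] L), gl σ⁻¹ p = p := by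
    intro p
    have h2 : (Pi.single (gl σ⁻¹ p) 1 - Pi.single p 1 : (Σ i, (K i →ₐ[ℚ] L)) → ℚ) ∈ D.NN L 𝔥 := by
      refine mem_of_annihilator fun m hm => ?_
      have h3 : m ∈ D.YY L 𝔥 := fun n hn => by
        rw [← hm n hn]
        exact Finset.sum_congr rfl fun q _ => mul_comm _ _
      have h4 := D.rep_apply 𝔥 σ ⟨m, h3⟩ p
      rw [hσ] at h4
      have h5 : m p = m (gl σ⁻¹ p) := h4
      simp only [Pi.sub_apply, mul_sub, Finset.sum_sub_distrib]
      have h6 : ∀ q, ∑ x, m x * (Pi.single q (1 : ℚ) : (Σ i, (K i →ₐ[ℚ] L)) → ℚ) x = m q := by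
        intro q
        rw [Finset.sum_eq_single q]
        · rw [Pi.single_eq_same, mul_one]
        · intro r _ hr
          rw [Pi.single_eq_of_ne hr, mul_zero]
        · intro h
          exact absurd (Finset.mem_univ _) h
      rw [h6, h6, ← h5, sub_self]
    have h3 : ∀ θ, D.act θ ∈ 𝔥 → (gl σ⁻¹ p).2 (θ (gl σ⁻¹ p).1) = p.2 (θ p.1) := by
      intro θ hθ
      have h4 := h2 θ hθ
      have h5 : ∀ p, ∑ r : Σ i, (K i →ₐ[ℚ] L), (Pi.single p (1 : ℚ) :
          (Σ i, (K i →ₐ[ℚ] L)) → ℚ) r • r.2 (θ r.1) = p.2 (θ p.1) := by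
        intro p
        rw [Finset.sum_eq_single p]
        · rw [Pi.single_eq_same, one_smul]
        · intro r _ hr
          rw [Pi.single_eq_of_ne hr, zero_smul]
        · intro h
          exact absurd (Finset.mem_univ _) h
      simp only [Pi.sub_apply, sub_smul, Finset.sum_sub_distrib, h5] at h4
      exact sub_eq_zero.1 h4
    have h4 := D.eq_of_full hΦ hF hle h3
    refine Sigma.ext rfl (heq_of_eq ?_)
    refine eq_of_primitive (hprim p.1) fun φ => ?_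
    have h5 := congrFun h4 φ
    unfold weight compEmb at h5
    change (if φ.comp ((((σ⁻¹ : L ≃ₐ[ℚ] L) : L →ₐ[ℚ] L).comp p.2 : K p.1 →ₐ[ℚ] L) : K p.1 →+* L)
      ∈ Φ p.1 then (1 : ℚ) else -1) =
      (if φ.comp (p.2 : K p.1 →+* L) ∈ Φ p.1 then (1 : ℚ) else -1) at h5
    split_ifs at h5 with h6 h7 h7
    · exact ⟨fun _ => h7, fun _ => h6⟩
    · norm_num at h5
    · norm_num at h5
    · exact ⟨fun h => absurd h h6, fun h => absurd h h7⟩
  have h2 : σ⁻¹ = 1 := by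
    have h3 : (⨆ p : (Σ i, (K i →ₐ[ℚ] L)), p.2.fieldRange) ≤
        IntermediateField.fixedField (Subgroup.zpowers σ⁻¹) := by
      refine iSup_le fun p => ?_
      rintro _ ⟨x, rfl⟩
      rw [IntermediateField.mem_fixedField_iff]
      have h4 : σ⁻¹ (p.2 x) = p.2 x := by
        have h5 := h1 p
        have h6 := eq_of_heq (Sigma.ext_iff.1 h5).2
        exact congrArg (fun f : K p.1 →ₐ[ℚ] L => f x) h6
      intro τ hτ
      have h5 : Subgroup.zpowers σ⁻¹ ≤ MulAction.stabilizer (L ≃ₐ[ℚ] L) (p.2 x) :=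
        Subgroup.zpowers_le.2 h4
      exact h5 hτ
    rw [hL] at h3
    refine AlgEquiv.ext fun y => ?_
    exact (IntermediateField.mem_fixedField_iff _ _).1 (h3 IntermediateField.mem_top) _
      (Subgroup.mem_zpowers σ⁻¹)
  exact inv_eq_one.1 h2

/-- Complex conjugation acts as `-1`. -/
theorem rep_conj (hΦ : ∀ i, IsCMType (Φ i)) {𝔥 : Submodule ℚ (Module.End ℚ A.H1)} (hle : 𝔥 ≤ A.MA)
    {c : L ≃ₐ[ℚ] L} (hc : ∀ (φ : L →+* ℂ) (x : L), φ (c x) = (starRingEnd ℂ) (φ x)) :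
    D.rep L 𝔥 c = -1 := by
  classical
  have hc' : ∀ φ : L →+* ℂ, tw φ c = NumberField.ComplexEmbedding.conjugate φ := fun φ =>
    RingHom.ext fun x => by
      rw [NumberField.ComplexEmbedding.conjugate_coe_eq]
      exact hc φ x
  have hcc : c⁻¹ = c := by
    obtain ⟨φ⟩ : Nonempty (L →+* ℂ) := inferInstance
    refine inv_eq_of_mul_eq_one_left (AlgEquiv.ext fun x => φ.injective ?_)
    change φ (c (c x)) = φ x
    rw [hc, hc, Complex.conj_conj]
  refine LinearMap.ext fun v => Subtype.ext (funext fun p => ?_)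
  rw [D.rep_apply, hcc]
  change v.1 (gl c p) = -v.1 p
  have h2 : (Pi.single (gl c p) 1 + Pi.single p 1 : (Σ i, (K i →ₐ[ℚ] L)) → ℚ) ∈ D.NN L 𝔥 := by
    intro θ hθ
    have h5 : ∀ p, ∑ r : Σ i, (K i →ₐ[ℚ] L), (Pi.single p (1 : ℚ) :
        (Σ i, (K i →ₐ[ℚ] L)) → ℚ) r • r.2 (θ r.1) = p.2 (θ p.1) := by
      intro p
      rw [Finset.sum_eq_single p]
      · rw [Pi.single_eq_same, one_smul]
      · intro r _ hr
        rw [Pi.single_eq_of_ne hr, zero_smul]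
      · intro h
        exact absurd (Finset.mem_univ _) h
    simp only [Pi.add_apply, add_smul, Finset.sum_add_distrib, h5]
    have h7 := D.act_conj hΦ hc' (hle hθ) p
    change (gl c p).2 (θ p.1) + p.2 (θ p.1) = 0
    rw [h7, neg_add_cancel]
  have h3 := v.2 _ h2
  have h6 : ∀ q, ∑ x, (Pi.single q (1 : ℚ) : (Σ i, (K i →ₐ[ℚ] L)) → ℚ) x * v.1 x = v.1 q := by
    intro q
    rw [Finset.sum_eq_single q]
    · rw [Pi.single_eq_same, one_mul]
    · intro r _ hr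
      rw [Pi.single_eq_of_ne hr, zero_mul]
    · intro h
      exact absurd (Finset.mem_univ _) h
  simp only [Pi.add_apply, add_mul, Finset.sum_add_distrib, h6] at h3
  exact eq_neg_of_add_eq_zero_left h3

include D in
/-- **A faithful representation of the Galois group.** -/
theorem exists_faithful (hΦ : ∀ i, IsCMType (Φ i)) (hprim : ∀ i, IsPrimitive (Φ i)) [IsGalois ℚ L]
    (hL : ⨆ p : (Σ i, (K i →ₐ[ℚ] L)), p.2.fieldRange = ⊤)
    {𝔥 : Submodule ℚ (Module.End ℚ A.H1)} (hF : A.Full 𝔥) (hRC : Pool.Agent.R917.DT.RC 𝔥)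
    (hle : 𝔥 ≤ A.MA) : ∃ r ≤ finrank ℚ 𝔥, ∃ ρ : (L ≃ₐ[ℚ] L) →* Matrix (Fin r) (Fin r) ℚ,
      Function.Injective ρ ∧ ∀ c : L ≃ₐ[ℚ] L,
        (∀ (φ : L →+* ℂ) (x : L), φ (c x) = (starRingEnd ℂ) (φ x)) → ρ c = -1 := by
  obtain ⟨φ⟩ : Nonempty (L →+* ℂ) := inferInstance
  let b := Module.finBasis ℚ (D.YY L 𝔥)
  let e := LinearMap.toMatrixAlgEquiv b
  refine ⟨finrank ℚ (D.YY L 𝔥), D.finrank_YY_le φ hRC hle,
    (e : _ →* _).comp (D.rep L 𝔥), ?_, fun c hc => ?_⟩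
  · intro σ τ h
    have h1 : D.rep L 𝔥 σ = D.rep L 𝔥 τ := e.injective h
    have h2 : D.rep L 𝔥 (σ * τ⁻¹) = 1 := by
      rw [map_mul, h1, ← map_mul, mul_inv_cancel, map_one]
    exact mul_inv_eq_one.1 (D.rep_faithful hΦ hprim hL hF hle h2)
  · change e (D.rep L 𝔥 c) = -1
    rw [D.rep_conj hΦ hle hc]
    have h1 : e (-1 : Module.End ℚ (D.YY L 𝔥)) = -e (1 : Module.End ℚ (D.YY L 𝔥)) := map_neg e 1
    exact h1.trans (congrArg Neg.neg (map_one e))

include D in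
/-- **The degree of the Galois closure.** -/
theorem degree_dvd (hΦ : ∀ i, IsCMType (Φ i)) (hprim : ∀ i, IsPrimitive (Φ i)) [IsGalois ℚ L]
    (hL : ⨆ p : (Σ i, (K i →ₐ[ℚ] L)), p.2.fieldRange = ⊤)
    {𝔥 : Submodule ℚ (Module.End ℚ A.H1)} (hF : A.Full 𝔥) (hRC : Pool.Agent.R917.DT.RC 𝔥)
    (hle : 𝔥 ≤ A.MA) : finrank ℚ L ∣ (2 * finrank ℚ 𝔥).factorial := by
  obtain ⟨φ⟩ : Nonempty (L →+* ℂ) := inferInstance
  have h1 := CM2.card_dvd_factorial (D.rep L 𝔥) fun σ hσ => D.rep_faithful hΦ hprim hL hF hle hσ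
  rw [IsGalois.card_aut_eq_finrank] at h1
  exact h1.trans (Nat.factorial_dvd_factorial
    (Nat.mul_le_mul_left 2 (D.finrank_YY_le φ hRC hle)))

end CMData

end Pool.Agent.K6.H7.CM1
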