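import Mathlib

set_option autoImplicit false

/-!
# The theorem of Schur on the order of finite groups of rational matrices

If a finite group has a faithful representation of dimension `s` over the rational numbers, then its
order divides `(2 s)!`.
-/

open Module TensorProduct

namespace Pool.Agent.K6.H7.CM2

section mean

variable {Γ : Type} [Group Γ] [Fintype Γ]

theorem exists_sum {V : Type} [AddCommGroup V] [Module ℚ V] [FiniteDimensional ℚ V]
    (ρ : Representation ℚ Γ V) : ∃ m : ℤ, ∑ γ : Γ, ρ.character γ = (Nat.card Γ : ℚ) * m := by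
  have hc : (Nat.card Γ : ℚ) ≠ 0 := by exact_mod_cast Nat.card_pos.ne'
  have : Invertible (Nat.card Γ : ℚ) := invertibleOfNonzero hc
  have h := ρ.card_inv_mul_sum_char_eq_finrank
  refine ⟨finrank ℚ (Representation.invariants ρ), ?_⟩
  rw [Int.cast_natCast, ← h, mul_inv_cancel_left₀ hc]

/-- Powers of characters are characters. -/
theorem exists_pow {V : Type} [AddCommGroup V] [Module ℚ V] [FiniteDimensional ℚ V]
    (ρ : Representation ℚ Γ V) (k : ℕ) : ∃ (W : Type) (_ : AddCommGroup W) (_ : Module ℚ W)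
    (_ : FiniteDimensional ℚ W) (σ : Representation ℚ Γ W), ∀ γ, σ.character γ = ρ.character γ ^ k := by
  induction k with
  | zero =>
    refine ⟨ℚ, inferInstance, inferInstance, inferInstance, Representation.trivial ℚ Γ ℚ, fun γ => ?_⟩
    rw [pow_zero]
    change LinearMap.trace ℚ ℚ LinearMap.id = 1
    rw [LinearMap.trace_id, finrank_self, Nat.cast_one]
  | succ k ih =>
    obtain ⟨W, i1, i2, i3, σ, hσ⟩ := ih
    refine ⟨W ⊗[ℚ] V, inferInstance, inferInstance, inferInstance, σ.tprod ρ, fun γ => ?_⟩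
    rw [Representation.char_tensor, Pi.mul_apply, hσ, pow_succ]

theorem exists_sum_pow {V : Type} [AddCommGroup V] [Module ℚ V] [FiniteDimensional ℚ V]
    (ρ : Representation ℚ Γ V) (k : ℕ) :
    ∃ m : ℤ, ∑ γ : Γ, ρ.character γ ^ k = (Nat.card Γ : ℚ) * m := by
  obtain ⟨W, i1, i2, i3, σ, hσ⟩ := exists_pow ρ k
  obtain ⟨m, hm⟩ := exists_sum σ
  exact ⟨m, by rw [← hm]; exact Finset.sum_congr rfl fun γ _ => (hσ γ).symm⟩

theorem exists_sum_poly {V : Type} [AddCommGroup V] [Module ℚ V] [FiniteDimensional ℚ V]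
    (ρ : Representation ℚ Γ V) (P : Polynomial ℤ) :
    ∃ m : ℤ, ∑ γ : Γ, Polynomial.aeval (ρ.character γ) P = (Nat.card Γ : ℚ) * m := by
  induction P using Polynomial.induction_on' with
  | add p q hp hq =>
    obtain ⟨m, hm⟩ := hp
    obtain ⟨n, hn⟩ := hq
    refine ⟨m + n, ?_⟩
    simp only [map_add, Finset.sum_add_distrib, hm, hn]
    push_cast
    ring
  | monomial k a =>
    obtain ⟨m, hm⟩ := exists_sum_pow ρ k
    refine ⟨a * m, ?_⟩
    simp only [Polynomial.aeval_monomial]
    rw [← Finset.mul_sum, hm]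
    simp only [algebraMap_int_eq, Int.coe_castRingHom]
    push_cast
    ring

end mean

section trace

variable {V : Type} [AddCommGroup V] [Module ℚ V] [FiniteDimensional ℚ V]

theorem norm_sum_le (s : Multiset ℂ) (h : ∀ z ∈ s, ‖z‖ = 1) : ‖s.sum‖ ≤ s.card := by
  induction s using Multiset.induction with
  | empty => simp
  | cons a s ih =>
    rw [Multiset.sum_cons, Multiset.card_cons]
    have h1 := norm_add_le a s.sum
    have h2 := h a (Multiset.mem_cons_self a s)
    have h3 := ih fun z hz => h z (Multiset.mem_cons_of_mem hz)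
    push_cast
    linarith

theorem eq_one_of_sum (s : Multiset ℂ) (h : ∀ z ∈ s, ‖z‖ = 1) (hs : s.sum.re = s.card) :
    ∀ z ∈ s, z = 1 := by
  induction s using Multiset.induction with
  | empty => simp
  | cons a s ih =>
    rw [Multiset.sum_cons, Multiset.card_cons, Complex.add_re] at hs
    push_cast at hs
    have h2 := h a (Multiset.mem_cons_self a s)
    have h3 := norm_sum_le s fun z hz => h z (Multiset.mem_cons_of_mem hz)
    have h4 := (Complex.abs_re_le_norm s.sum).trans h3
    have h5 := Complex.abs_re_le_norm a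
    rw [h2] at h5
    have h6 : a.re = 1 := by
      have := abs_le.1 h4
      have := abs_le.1 h5
      linarith
    have h7 : s.sum.re = s.card := by linarith
    intro z hz
    rcases Multiset.mem_cons.1 hz with rfl | hz
    · have h8 : z.re ^ 2 + z.im ^ 2 = 1 := by
        have h9 := Complex.sq_norm z
        rw [h2, Complex.normSq_apply] at h9
        linarith
      rw [h6] at h8
      have h9 : z.im = 0 := by nlinarith
      exact Complex.ext h6 h9
    · exact ih (fun z hz => h z (Multiset.mem_cons_of_mem hz)) h7 z hz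

theorem isIntegral_sum (s : Multiset ℂ) (h : ∀ z ∈ s, IsIntegral ℤ z) : IsIntegral ℤ s.sum := by
  induction s using Multiset.induction with
  | empty => simp [isIntegral_zero]
  | cons a s ih =>
    rw [Multiset.sum_cons]
    exact (h a (Multiset.mem_cons_self a s)).add (ih fun z hz => h z (Multiset.mem_cons_of_mem hz))

/-- The trace of an endomorphism of finite order. -/
theorem trace_int {f : Module.End ℚ V} {m : ℕ} (hm : 0 < m) (hf : f ^ m = 1) :
    ∃ t : ℤ, LinearMap.trace ℚ V f = t ∧ -(finrank ℚ V : ℤ) ≤ t ∧ t ≤ finrank ℚ V ∧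
      (t = finrank ℚ V → f = 1) := by
  let F : Module.End ℂ (ℂ ⊗[ℚ] V) := f.baseChange ℂ
  have hF : F ^ m = 1 := by
    change (f.baseChange ℂ) ^ m = 1
    rw [← LinearMap.baseChange_pow, hf]
    exact LinearMap.baseChange_one _ _
  have hsp : F.charpoly.Splits := IsAlgClosed.splits _
  have htr := Module.End.trace_eq_sum_roots_charpoly_of_splits hsp
  have hcard : Multiset.card F.charpoly.roots = finrank ℚ V := by
    rw [← hsp.natDegree_eq_card_roots, LinearMap.charpoly_natDegree, Module.finrank_baseChange]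
  have hroot : ∀ z ∈ F.charpoly.roots, z ^ m = 1 := by
    intro z hz
    have h1 := (F.hasEigenvalue_iff_isRoot_charpoly z).2 (Polynomial.isRoot_of_mem_roots hz)
    obtain ⟨v, hv⟩ := h1.exists_hasEigenvector
    have h2 : (F ^ m) v = z ^ m • v := by
      have h3 := hv.pow_apply m
      exact h3
    rw [hF, Module.End.one_apply] at h2
    have h3 : (z ^ m - 1) • v = 0 := by rw [sub_smul, one_smul, ← h2, sub_self]
    rcases smul_eq_zero.1 h3 with h4 | h4
    · exact sub_eq_zero.1 h4
    · exact absurd h4 hv.2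
  have hnorm : ∀ z ∈ F.charpoly.roots, ‖z‖ = 1 := fun z hz =>
    Complex.norm_eq_one_of_pow_eq_one (hroot z hz) hm.ne'
  have htr2 : LinearMap.trace ℂ (ℂ ⊗[ℚ] V) F = ((LinearMap.trace ℚ V f : ℚ) : ℂ) := by
    rw [LinearMap.trace_baseChange]
    rfl
  rw [htr2] at htr
  have hint : IsIntegral ℤ (LinearMap.trace ℚ V f) := by
    have h1 : IsIntegral ℤ ((LinearMap.trace ℚ V f : ℚ) : ℂ) := by
      rw [htr]
      refine isIntegral_sum _ fun z hz => ?_
      exact IsIntegral.of_pow hm (by rw [hroot z hz]; exact isIntegral_one)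
    have h2 : ((LinearMap.trace ℚ V f : ℚ) : ℂ) = algebraMap ℚ ℂ (LinearMap.trace ℚ V f) := rfl
    rw [h2] at h1
    exact (isIntegral_algebraMap_iff (algebraMap ℚ ℂ).injective).1 h1
  obtain ⟨t, ht⟩ := IsIntegrallyClosed.isIntegral_iff.1 hint
  have ht' : LinearMap.trace ℚ V f = (t : ℚ) := ht.symm
  have hsum : F.charpoly.roots.sum = (t : ℂ) := by
    rw [← htr, ht', Rat.cast_intCast]
  have h1 := norm_sum_le _ hnorm
  rw [hsum, hcard, Complex.norm_intCast] at h1
  have h2 := abs_le.1 h1
  refine ⟨t, ht', by exact_mod_cast h2.1, by exact_mod_cast h2.2, fun hts => ?_⟩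
  have h3 := eq_one_of_sum _ hnorm (by rw [hsum, hcard, hts]; simp)
  have h4 : F.charpoly = (Polynomial.X - Polynomial.C 1) ^ finrank ℚ V := by
    have h5 := hsp.eq_prod_roots_of_monic F.charpoly_monic
    rw [h5]
    have h6 : F.charpoly.roots = Multiset.replicate (finrank ℚ V) 1 :=
      Multiset.eq_replicate.2 ⟨hcard, h3⟩
    rw [h6, Multiset.map_replicate, Multiset.prod_replicate]
  have h5 : (F - 1) ^ finrank ℚ V = 0 := by
    have h6 := F.aeval_self_charpoly
    rw [h4] at h6
    simpa using h6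
  have h6 : IsNilpotent (f - 1) := by
    refine ⟨finrank ℚ V, ?_⟩
    have h7 : ((f - 1) ^ finrank ℚ V).baseChange ℂ = 0 := by
      rw [LinearMap.baseChange_pow, LinearMap.baseChange_sub]
      rw [LinearMap.baseChange_one]
      exact h5
    refine LinearMap.ext fun v => ?_
    have h8 := congrArg (fun X : Module.End ℂ (ℂ ⊗[ℚ] V) => X (1 ⊗ₜ v)) h7
    simp only [LinearMap.baseChange_tmul, LinearMap.zero_apply] at h8
    rw [LinearMap.zero_apply]
    by_contra hne
    obtain ⟨g, hg⟩ := Module.Projective.exists_dual_ne_zero ℚ hne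
    apply hg
    have h9 := congrArg ((TensorProduct.rid ℚ ℂ).toLinearMap ∘ₗ (LinearMap.lTensor ℂ g)) h8
    simp only [LinearMap.comp_apply, LinearMap.lTensor_tmul, map_zero] at h9
    have h10 : (g (((f - 1) ^ finrank ℚ V) v)) • (1 : ℂ) = 0 := by
      simpa using h9
    simpa using h10
  have h7 : f.IsSemisimple := by
    refine Module.End.isSemisimple_of_squarefree_aeval_eq_zero (p := Polynomial.X ^ m - 1) ?_ ?_
    · refine (Polynomial.X_pow_sub_one_separable_iff.2 ?_).squarefree
      exact_mod_cast hm.ne'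
    · simp [hf]
  have h8 : (f - 1).IsSemisimple := by
    have h9 := (Module.End.isSemisimple_sub_algebraMap_iff (f := f) (μ := (1 : ℚ))).2 h7
    rwa [map_one] at h9
  exact sub_eq_zero.1 (Module.End.eq_zero_of_isNilpotent_isSemisimple h6 h8)

end trace

/-- **Theorem (Schur).** The order of a finite group of rational matrices of size `s` divides
`(2 s)!`. -/
theorem card_dvd_factorial {Γ : Type} [Group Γ] [Fintype Γ] {V : Type} [AddCommGroup V] [Module ℚ V]
    [FiniteDimensional ℚ V] (ρ : Representation ℚ Γ V) (hρ : ∀ γ, ρ γ = 1 → γ = 1) :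
    Nat.card Γ ∣ (2 * finrank ℚ V).factorial := by
  classical
  let s := finrank ℚ V
  let P : Polynomial ℤ := ∏ j ∈ Finset.range (2 * s), (Polynomial.X - Polynomial.C ((j : ℤ) - s))
  have hP : ∀ x : ℚ, Polynomial.aeval x P = ∏ j ∈ Finset.range (2 * s), (x - ((j : ℚ) - s)) := by
    intro x
    simp only [P, map_prod, map_sub, Polynomial.aeval_X, Polynomial.aeval_C, algebraMap_int_eq]
    refine Finset.prod_congr rfl fun j _ => ?_
    simp
  have h1 : ∀ γ : Γ, γ ≠ 1 → Polynomial.aeval (ρ.character γ) P = 0 := by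
    intro γ hγ
    obtain ⟨t, ht, h2, h3, h4⟩ := trace_int (f := ρ γ) (m := Nat.card Γ) Nat.card_pos (by
      rw [← map_pow, pow_card_eq_one', map_one])
    have h5 : t < s := lt_of_le_of_ne h3 fun h => hγ (hρ γ (h4 h))
    rw [hP]
    refine Finset.prod_eq_zero (i := (t + s).toNat) (Finset.mem_range.2 ?_) ?_
    · zify
      rw [Int.toNat_of_nonneg (by linarith)]
      linarith
    · have h6 : (((t + s).toNat : ℤ) : ℚ) = ((t + s : ℤ) : ℚ) := by
        rw [Int.toNat_of_nonneg (by linarith)]
      have h7 : ρ.character γ = t := ht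
      rw [h7]
      push_cast at h6
      rw [h6]
      ring
  have h2 : Polynomial.aeval (ρ.character 1) P = ((2 * s).factorial : ℚ) := by
    rw [Representation.char_one, hP, ← Finset.prod_range_reflect, Nat.factorial_eq_prod_range_add_one]
    push_cast
    refine Finset.prod_congr rfl fun j hj => ?_
    have hj' := Finset.mem_range.1 hj
    have h3 : ((2 * s - 1 - j : ℕ) : ℚ) = 2 * s - 1 - j := by
      rw [Nat.cast_sub (by omega), Nat.cast_sub (by omega)]
      push_cast
      ring
    rw [h3]
    change (s : ℚ) - (2 * s - 1 - j - s) = j + 1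
    ring
  obtain ⟨m, hm⟩ := exists_sum_poly ρ P
  rw [Finset.sum_eq_single 1 (fun γ _ hγ => h1 γ hγ) (fun h => absurd (Finset.mem_univ _) h),
    h2] at hm
  have h3 : ((2 * s).factorial : ℤ) = (Nat.card Γ : ℤ) * m := by exact_mod_cast hm
  exact_mod_cast (Dvd.intro m h3.symm : (Nat.card Γ : ℤ) ∣ ((2 * s).factorial : ℤ))

end Pool.Agent.K6.H7.CM2
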