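import Pool.Agent.K6.H7.CM1.Wgt
import Pool.Agent.K6.H7.CM2.Schur

set_option autoImplicit false
set_option linter.unusedSectionVars false
set_option linter.unusedSimpArgs false

/-!
# The Galois representation on the cocharacters of the torus of a replica closed Lie algebra
-/

open Module Matrix TensorProduct Pool.Agent.Y102 Pool.Agent.H204R3.GP

noncomputable section

namespace Pool.Agent.K6.H7.CM1

section lin

/-- Rational vectors which are independent over `ℚ` are independent over `ℂ`. -/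
theorem linearIndependent_cast {κ X : Type} {w : κ → X → ℚ} (h : LinearIndependent ℚ w) :
    LinearIndependent ℂ (fun k (x : X) => ((w k x : ℚ) : ℂ)) := by
  rw [linearIndependent_iff'] at h ⊢
  intro s c hc k hk
  refine eq_zero_of_lam fun lam => ?_
  refine h s (fun k => lam (c k)) ?_ k hk
  funext x
  have h1 := congrFun hc x
  rw [Finset.sum_apply, Pi.zero_apply] at h1
  have h2 := congrArg lam h1
  rw [map_sum, map_zero] at h2
  rw [Finset.sum_apply, Pi.zero_apply, ← h2]
  refine Finset.sum_congr rfl fun j _ => ?_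
  rw [Pi.smul_apply, Pi.smul_apply, smul_eq_mul, smul_eq_mul, lam_mul_rat]

/-- coordinates of finitely many complex numbers -/
theorem exists_coordsC {N : ℕ} (c : ℕ → ℂ) : ∃ (κ : Type) (S : Finset κ) (b : κ → ℂ)
    (l : κ → (ℂ →ₗ[ℚ] ℚ)), ∀ k < N, c k = ∑ j ∈ S, ((l j (c k) : ℚ) : ℂ) * b j := by
  classical
  let B := Basis.ofVectorSpace ℚ ℂ
  refine ⟨_, (Finset.range N).biUnion fun k => (B.repr (c k)).support, fun j => B j,
    fun j => B.coord j, fun k hk => ?_⟩
  have h1 := B.linearCombination_repr (c k)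
  rw [Finsupp.linearCombination_apply, Finsupp.sum] at h1
  conv_lhs => rw [← h1]
  refine Finset.sum_subset_zero_on_sdiff ?_ (fun j hj => ?_) fun j _ => ?_
  · intro j hj
    exact Finset.mem_biUnion.2 ⟨k, Finset.mem_range.2 hk, hj⟩
  · have h2 := (Finset.mem_sdiff.1 hj).2
    rw [Finsupp.notMem_support_iff] at h2
    change ((B.repr (c k) j : ℚ) : ℂ) * B j = 0
    rw [h2, Rat.cast_zero, zero_mul]
  · rw [Rat.smul_def]
    rfl

/-- The double annihilator. -/
theorem mem_of_annihilator {X : Type} [Fintype X] {R : Submodule ℚ (X → ℚ)} {v : X → ℚ}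
    (h : ∀ n : X → ℚ, (∀ w ∈ R, ∑ x, n x * w x = 0) → ∑ x, n x * v x = 0) : v ∈ R := by
  classical
  by_contra hcon
  obtain ⟨Λ, h1, h2⟩ := Submodule.exists_le_ker_of_notMem hcon
  have h3 : ∀ w : X → ℚ, Λ w = ∑ x, Λ (Pi.single x 1) * w x := by
    intro w
    conv_lhs => rw [← Finset.univ_sum_single w]
    rw [map_sum]
    refine Finset.sum_congr rfl fun x _ => ?_
    have h4 : (Pi.single x (w x) : X → ℚ) = w x • Pi.single x 1 := by
      rw [← Pi.single_smul, smul_eq_mul, mul_one]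
    rw [h4, map_smul, smul_eq_mul, mul_comm]
  apply h1
  rw [h3]
  exact h _ fun w hw => by rw [← h3]; exact h2 hw

end lin

variable {ι : Type} {K : ι → Type} [∀ i, Field (K i)] [∀ i, NumberField (K i)]
  {L : Type} [Field L] [NumberField L]

namespace CMData

variable {g : ℕ} {A : AbVar g} {Φ : ∀ i, Set (K i →+* ℂ)} (D : CMData A Φ) [Fintype ι]

/-- The rational cocharacters of the torus of `𝔥`. -/
def YY (L : Type) [Field L] [NumberField L] (𝔥 : Submodule ℚ (Module.End ℚ A.H1)) :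
    Submodule ℚ ((Σ i, (K i →ₐ[ℚ] L)) → ℚ) where
  carrier := {v | ∀ n ∈ D.NN L 𝔥, ∑ p, n p * v p = 0}
  zero_mem' := fun n _ => Finset.sum_eq_zero fun p _ => by rw [Pi.zero_apply, mul_zero]
  add_mem' := fun {v v'} hv hv' n hn => by
    simp only [Pi.add_apply, mul_add, Finset.sum_add_distrib, hv n hn, hv' n hn, add_zero]
  smul_mem' := fun c v hv n hn => by
    simp only [Pi.smul_apply, smul_eq_mul, mul_left_comm _ c, ← Finset.mul_sum, hv n hn, mul_zero]

/-- the vector of the conjugates -/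
def vec (φ : L →+* ℂ) (θ : ∀ i, K i) : (Σ i, (K i →ₐ[ℚ] L)) → ℂ := fun p => ev (cp φ p) θ

/-- the complex space -/
def SC (φ : L →+* ℂ) (𝔥 : Submodule ℚ (Module.End ℚ A.H1)) :
    Submodule ℂ ((Σ i, (K i →ₐ[ℚ] L)) → ℂ) :=
  Submodule.span ℂ {w | ∃ θ, D.act θ ∈ 𝔥 ∧ w = vec φ θ}

/-- **Replicas.** -/
theorem rat_mem (φ : L →+* ℂ) {𝔥 : Submodule ℚ (Module.End ℚ A.H1)}
    (hRC : Pool.Agent.R917.DT.RC 𝔥) {θ : ∀ i, K i} (hθ : D.act θ ∈ 𝔥) (ν : ℂ →ₗ[ℚ] ℚ) :
    (fun p => ((ν (vec φ θ p) : ℚ) : ℂ)) ∈ D.SC (L := L) φ 𝔥 := by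
  classical
  let σ : ℂ →+ ℂ :=
    { toFun := fun z => ((ν z : ℚ) : ℂ)
      map_zero' := by rw [map_zero, Rat.cast_zero]
      map_add' := fun z w => by rw [map_add, Rat.cast_add] }
  let s : Finset ℂ := Finset.univ.image fun p : Σ i, (K i →+* ℂ) => ev p θ
  have hs : ∀ p, ev p θ ∈ s := fun p => Finset.mem_image_of_mem _ (Finset.mem_univ p)
  let Q : Polynomial ℂ := Lagrange.interpolate s id (fun x => σ x)
  have hQ : ∀ x ∈ s, Q.eval x = σ x := fun x hx =>
    Lagrange.eval_interpolate_at_node (fun x => σ x) (Function.injective_id.injOn) hx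
  obtain ⟨κ, S, b, l, hl⟩ := exists_coordsC (N := Q.natDegree + 1) Q.coeff
  have h1 : (fun p => ((ν (vec φ θ p) : ℚ) : ℂ)) =
      ∑ j ∈ S, b j • vec (L := L) φ (pol Q (l j) θ) := by
    funext p
    rw [Finset.sum_apply]
    have h2 : ∀ j, vec (L := L) φ (pol Q (l j) θ) p =
        ∑ k ∈ Finset.range (Q.natDegree + 1), ((l j (Q.coeff k) : ℚ) : ℂ) * ev (cp φ p) θ ^ k := by
      intro j
      unfold vec pol ev
      rw [Finset.sum_apply, map_sum]
      refine Finset.sum_congr rfl fun k _ => ?_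
      rw [Pi.smul_apply, map_rat_smul', Pi.pow_apply, map_pow]
    have h3 : ((ν (vec φ θ p) : ℚ) : ℂ) = Q.eval (ev (cp φ p) θ) := (hQ _ (hs (cp φ p))).symm
    rw [h3, Polynomial.eval_eq_sum_range]
    simp only [Pi.smul_apply, h2, smul_eq_mul, Finset.mul_sum]
    rw [Finset.sum_comm]
    refine Finset.sum_congr rfl fun k hk => ?_
    rw [hl k (Finset.mem_range.1 hk), Finset.sum_mul]
    refine Finset.sum_congr rfl fun j _ => ?_
    rw [← hl k (Finset.mem_range.1 hk)]
    ring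
  rw [h1]
  refine Submodule.sum_mem _ fun j _ => Submodule.smul_mem _ _ (Submodule.subset_span ⟨_, ?_, rfl⟩)
  exact hRC (D.act θ) hθ s (D.aeval_nodal θ hs) σ Q hQ (l j) (D.act (pol Q (l j) θ))
    (D.rm_pol θ Q (l j))

/-- **The dimension of the space of the cocharacters.** -/
theorem finrank_YY_le (φ : L →+* ℂ) {𝔥 : Submodule ℚ (Module.End ℚ A.H1)}
    (hRC : Pool.Agent.R917.DT.RC 𝔥) (hle : 𝔥 ≤ A.MA) :
    finrank ℚ (D.YY L 𝔥) ≤ finrank ℚ 𝔥 := by
  classical
  -- the rational vectors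
  let R : Submodule ℚ ((Σ i, (K i →ₐ[ℚ] L)) → ℚ) :=
    Submodule.span ℚ {w | ∃ θ, D.act θ ∈ 𝔥 ∧ ∃ ν : ℂ →ₗ[ℚ] ℚ, w = fun p => ν (vec φ θ p)}
  have hR : D.YY L 𝔥 ≤ R := by
    intro v hv
    refine mem_of_annihilator fun n hn => hv n fun θ hθ => ?_
    apply φ.injective
    rw [map_sum, map_zero]
    refine eq_zero_of_lam fun ν => ?_
    rw [map_sum, ← hn _ (Submodule.subset_span ⟨θ, hθ, ν, rfl⟩)]
    refine Finset.sum_congr rfl fun p _ => ?_
    rw [Rat.smul_def, map_mul, map_ratCast, lam_rat_mul]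
    rfl
  have hR2 : ∀ w ∈ R, (fun p => ((w p : ℚ) : ℂ)) ∈ D.SC φ 𝔥 := by
    intro w hw
    induction hw using Submodule.span_induction with
    | mem w hw =>
      obtain ⟨θ, hθ, ν, rfl⟩ := hw
      exact D.rat_mem φ hRC hθ ν
    | zero =>
      have h1 : (fun p : Σ i, (K i →ₐ[ℚ] L) => (((0 : (Σ i, (K i →ₐ[ℚ] L)) → ℚ) p : ℚ) : ℂ)) = 0 := by
        funext p
        simp
      rw [h1]
      exact Submodule.zero_mem _
    | add w w' _ _ h1 h2 =>
      have h3 := Submodule.add_mem _ h1 h2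
      convert h3 using 1
      funext p
      simp
    | smul c w _ h1 =>
      have h3 := Submodule.smul_mem _ (c : ℂ) h1
      convert h3 using 1
      funext p
      simp
  have h1 : finrank ℚ R ≤ finrank ℂ (D.SC (L := L) φ 𝔥) := by
    let b := Module.finBasis ℚ R
    have h2 : LinearIndependent ℚ (fun k => (b k : (Σ i, (K i →ₐ[ℚ] L)) → ℚ)) :=
      b.linearIndependent.map' R.subtype (Submodule.ker_subtype _)
    have h3 := linearIndependent_cast h2
    have h4 : LinearIndependent ℂ (fun k : Fin (finrank ℚ R) => (⟨_, hR2 _ (b k).2⟩ :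
        D.SC (L := L) φ 𝔥)) :=
      LinearIndependent.of_comp (D.SC (L := L) φ 𝔥).subtype h3
    have h5 := h4.fintype_card_le_finrank
    rwa [Fintype.card_fin] at h5
  have h2 : finrank ℂ (D.SC (L := L) φ 𝔥) ≤ finrank ℚ 𝔥 := by
    have i1 : Module.Finite ℚ 𝔥 := FiniteDimensional.finiteDimensional_submodule 𝔥
    have i2 : Module.Free ℚ 𝔥 := Module.Free.of_divisionRing ℚ 𝔥
    let b := Module.finBasis ℚ 𝔥
    choose θ hθ using fun k => D.exists_act (hle (b k).2)
    have h3 : D.SC (L := L) φ 𝔥 ≤ Submodule.span ℂ (Set.range fun k => vec (L := L) φ (θ k)) := by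
      refine Submodule.span_le.2 ?_
      rintro _ ⟨η, hη, rfl⟩
      have h4 := b.sum_repr ⟨_, hη⟩
      have h5 := congrArg Subtype.val h4
      simp only [Submodule.coe_sum, Submodule.coe_smul, ← hθ] at h5
      have h6 : D.act (∑ k, b.repr ⟨_, hη⟩ k • θ k) = D.act η := by
        rw [map_sum]
        refine Eq.trans ?_ h5
        exact Finset.sum_congr rfl fun k _ => map_smul _ _ _
      have h7 := D.act_inj h6
      rw [← h7]
      have h8 : vec (L := L) φ (∑ k, b.repr ⟨_, hη⟩ k • θ k) =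
          ∑ k, ((b.repr ⟨_, hη⟩ k : ℚ) : ℂ) • vec (L := L) φ (θ k) := by
        funext p
        rw [Finset.sum_apply]
        unfold vec ev
        rw [Finset.sum_apply, map_sum]
        refine Finset.sum_congr rfl fun k _ => ?_
        rw [Pi.smul_apply, map_rat_smul', Pi.smul_apply, smul_eq_mul]
      rw [h8]
      exact Submodule.sum_mem _ fun k _ => Submodule.smul_mem _ _
        (Submodule.subset_span ⟨k, rfl⟩)
    refine (Submodule.finrank_mono h3).trans ?_
    have h4 := finrank_range_le_card (R := ℂ) fun k => vec (L := L) φ (θ k)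
    rw [Fintype.card_fin] at h4
    exact h4
  exact ((Submodule.finrank_mono hR).trans h1).trans h2

end CMData

end Pool.Agent.K6.H7.CM1
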